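import Pool.Agent.N317.SM.Cls

set_option autoImplicit false

/-!
# A mixing homoclinic set of the standard map which is almost everywhere; every `|a| ≥ 256`

Let `S_a (x, y) = (2x - y + a sin 2πx, x)` on the torus, with `|a| ≥ 256` (NO parameter is excluded).
Sinai's conjecture says that `S_a` is ergodic (and mixing) with respect to the area; then `S_a` is
topologically mixing on the whole torus. Here: there is a closed invariant set `K`, containing the
hyperbolic fixed point `O = (0, 0)`, in which the homoclinic points of `O` are dense and on which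
`S_a` is topologically mixing, and `K` is almost everywhere: for every `n ≥ 1`, all the points of
the torus outside a set `B n` of area at most `6 n / |a| + 8 / √|a|` are within distance
`|a| ^ (-n / 4)` of `K`. For instance (`n ≈ √|a|`) all the points outside a set of area
`O (1 / √|a|)` are within distance `|a| ^ (-√|a| / 4)` of `K`.

Moreover `K` avoids all the periodic islands (periodic discs, periodic annuli, …): a returning domain
which meets `K` is invariant, has a connected preimage in the plane, and is dense in `K`.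
-/

open Real MeasureTheory Filter Topology
open scoped ENNReal

namespace Pool.Agent.Results.MP_9ee088_an.MixingClass

/-- The torus `ℝ² / ℤ²`, with its Lebesgue measure `volume` and the sup distance. -/
abbrev Torus := UnitAddCircle × UnitAddCircle

/-- `T` is the standard map `S_a` of the torus. -/
def IsStandardMap (a : ℝ) (T : Torus → Torus) : Prop :=
  ∀ x y : ℝ, T ((x : UnitAddCircle), (y : UnitAddCircle)) =
    (((2 * x - y + a * sin (2 * π * x) : ℝ) : UnitAddCircle), (x : UnitAddCircle))

/-- The covering map from the plane to the torus. -/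
noncomputable def proj (p : ℝ × ℝ) : Torus := ((p.1 : UnitAddCircle), (p.2 : UnitAddCircle))

/-- The scale `|a| ^ (-n / 4)`. -/
noncomputable def scale (a : ℝ) (n : ℕ) : ℝ := |a| ^ (-(n : ℝ) / 4)

/-- `p` is homoclinic to the fixed point `(0, 0)`: its future converges to `(0, 0)`, and it has a
past which converges to `(0, 0)`. -/
structure Homoclinic (T : Torus → Torus) (p : Torus) : Prop where
  future : Tendsto (fun j : ℕ => T^[j] p) atTop (𝓝 (0, 0))
  past : ∃ q : ℕ → Torus, q 0 = p ∧ (∀ j, T (q (j + 1)) = q j) ∧ Tendsto q atTop (𝓝 (0, 0))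

/-- `D` is a returning domain: an open connected (possibly empty) set such that every `T^k(D)` is
equal to `D` or disjoint from `D`. For instance a connected component of an invariant open set, or a
periodic domain disjoint from its other images. -/
structure Returning (T : Torus → Torus) (D : Set Torus) : Prop where
  isOpen : IsOpen D
  isPreconnected : IsPreconnected D
  returns : ∀ k : ℕ, T^[k] '' D = D ∨ Disjoint (T^[k] '' D) D

theorem scale_ge {a : ℝ} (ha : 256 ≤ |a|) (n : ℕ) :
    2 * N317.SM.rad (√|a|) n ≤ scale a n := by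
  have ha0 : 0 < |a| := by linarith
  have h1 : 1 / √√|a| = |a| ^ (-(1:ℝ) / 4) := by
    rw [Real.sqrt_eq_rpow, Real.sqrt_eq_rpow, ← Real.rpow_mul ha0.le, one_div, ← Real.rpow_neg ha0.le]
    norm_num
  have h2 : (1 / √√|a|) ^ n = scale a n := by
    unfold scale
    rw [h1, ← Real.rpow_natCast, ← Real.rpow_mul ha0.le]
    congr 1
    ring
  have h3 : 0 < √√|a| := Real.sqrt_pos.2 (Real.sqrt_pos.2 ha0)
  have h4 : 1 / √√|a| ≤ 1 := by
    rw [div_le_one h3]
    apply Real.le_sqrt_of_sq_le
    rw [one_pow]
    apply Real.le_sqrt_of_sq_le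
    linarith
  unfold N317.SM.rad
  rw [pow_succ, h2]
  have h5 : 0 ≤ scale a n := by
    unfold scale
    positivity
  have h6 : 0 < 1 / √√|a| := by positivity
  nlinarith

/-- **A mixing homoclinic set of the standard map which is almost everywhere, for every
`|a| ≥ 256`.** -/
theorem result (a : ℝ) (ha : 256 ≤ |a|) (T : Torus → Torus) (hT : IsStandardMap a T) :
    ∃ (B : ℕ → Set Torus) (K : Set Torus),
      (∀ n : ℕ, 1 ≤ n → MeasurableSet (B n) ∧
        volume (B n) ≤ ENNReal.ofReal (6 * n / |a| + 8 / √|a|)) ∧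
      IsClosed K ∧ T ⁻¹' K = K ∧ (0, 0) ∈ K ∧
      -- (1) `T` is topologically mixing on `K`, and the homoclinic points are dense in `K`
      (∀ U V : Set Torus, IsOpen U → IsOpen V → (U ∩ K).Nonempty → (V ∩ K).Nonempty →
        ∃ N : ℕ, ∀ k ≥ N, ∃ u ∈ U ∩ K, T^[k] u ∈ V ∩ K ∧ Homoclinic T u) ∧
      -- (2) `K` is almost everywhere
      (∀ n : ℕ, 1 ≤ n → ∀ q, q ∉ B n → (Metric.closedBall q (scale a n) ∩ K).Nonempty) ∧
      (∀ n : ℕ, 1 ≤ n → volume {q | Disjoint (Metric.closedBall q (scale a n)) K} ≤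
        ENNReal.ofReal (6 * n / |a| + 8 / √|a|)) ∧
      -- (3) a returning domain which meets `K` is no island
      (∀ D, Returning T D → (D ∩ K).Nonempty →
        T ⁻¹' D = D ∧ IsConnected (proj ⁻¹' D) ∧ K ⊆ closure (D ∩ K)) := by
  have hTS : T = TH705.SM.S a := TH705.SM.eq_S a T hT
  have hM : 16 ≤ √|a| := by
    apply Real.le_sqrt_of_sq_le
    norm_num
    exact ha
  have haM : |a| = √|a| ^ 2 := (Real.sq_sqrt (abs_nonneg a)).symm
  rw [hTS]
  -- the exceptional sets
  set bd : ℕ → Set Torus := fun n => toMeasurable volume (Y332.SM.bad a (√|a|) n) with hbd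
  set B : ℕ → Set Torus := fun n => bd n ∪ Prod.swap ⁻¹' bd n with hB
  have hbdv : ∀ n, 1 ≤ n → volume (bd n) ≤ ENNReal.ofReal (3 * n / |a| + 4 / √|a|) := by
    intro n hn
    have h1 : volume (bd n) = volume (Y332.SM.bad a (√|a|) n) := measure_toMeasurable _
    rw [h1]
    refine (Y332.SM.vol_bad hM haM hn).trans (ENNReal.ofReal_le_ofReal ?_)
    have h2 : (3.71:ℝ) / √|a| ≤ 4 / √|a| := div_le_div_of_nonneg_right (by norm_num) (by linarith)
    linarith
  have hBm : ∀ n, 1 ≤ n → MeasurableSet (B n) ∧
      volume (B n) ≤ ENNReal.ofReal (6 * n / |a| + 8 / √|a|) := by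
    intro n hn
    have hm : MeasurableSet (bd n) := measurableSet_toMeasurable _ _
    refine ⟨hm.union (hm.preimage measurable_swap), ?_⟩
    refine (measure_union_le _ _).trans ?_
    rw [Y332.SM.vol_swap]
    have h0 : 0 ≤ 3 * (n:ℝ) / |a| + 4 / √|a| := by positivity
    have e : 6 * (n:ℝ) / |a| + 8 / √|a| =
        (3 * (n:ℝ) / |a| + 4 / √|a|) + (3 * (n:ℝ) / |a| + 4 / √|a|) := by ring
    rw [e, ENNReal.ofReal_add h0 h0]
    exact add_le_add (hbdv n hn) (hbdv n hn)
  have hBn : ∀ n p, p ∉ B n → p ∉ Y332.SM.bad a (√|a|) n ∧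
      Prod.swap p ∉ Y332.SM.bad a (√|a|) n := by
    intro n p hp
    constructor
    · exact fun h => hp (Or.inl (subset_toMeasurable _ _ h))
    · exact fun h => hp (Or.inr (subset_toMeasurable volume _ h))
  have hnear : ∀ n : ℕ, 1 ≤ n → ∀ q, q ∉ B n →
      (Metric.closedBall q (scale a n) ∩ N317.SM.K a).Nonempty := by
    intro n hn q hq
    obtain ⟨h1, h2⟩ := hBn n q hq
    obtain ⟨z, hz, hd⟩ := N317.SM.near_bad hM haM hn h1 h2
    exact ⟨z, hd.trans (scale_ge ha n), hz⟩
  refine ⟨B, N317.SM.K a, hBm, N317.SM.K_closed a, N317.SM.K_inv ha, N317.SM.zero_mem_K ha,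
    ?_, hnear, ?_, ?_⟩
  · intro U V hU hV hUK hVK
    obtain ⟨N, hN⟩ := N317.SM.K_mixing ha hU hV hUK hVK
    refine ⟨N, fun k hk => ?_⟩
    obtain ⟨u, hu, hu2, hu3, hu4⟩ := hN k hk
    refine ⟨u, hu, hu2, hu3, fun j => (TH705.SM.Si a)^[j] u, rfl, fun j => ?_, hu4⟩
    show TH705.SM.S a ((TH705.SM.Si a)^[j + 1] u) = (TH705.SM.Si a)^[j] u
    rw [Function.iterate_succ_apply', Y332.SM.S_Si]
  · intro n hn
    refine (measure_mono ?_).trans (hBm n hn).2
    intro q hq
    by_contra hqB
    obtain ⟨z, hz1, hz2⟩ := hnear n hn q hqB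
    exact Set.disjoint_left.1 hq hz1 hz2
  · intro D hD hDK
    exact N317.SM.returning_K ha hD.isOpen hD.isPreconnected hD.returns hDK

end Pool.Agent.Results.MP_9ee088_an.MixingClass
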