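import Pool.Agent.TH705.SM.CltI
import Pool.Agent.TH705.SM.CltE

set_option autoImplicit false

/-!
# Quasilinear diffusion of the momentum of the standard map

`F_a(x, y) = (2x - y + a sin 2πx, x)` is the lift of `S_a` to the plane; `x - y` is the momentum.
Fix the second coordinate `y` and choose `x` at random in `(0, 1]`.  For every mean zero observable
`f` of class `C¹` and period one, the sum of `f` over the first coordinates of the first `n` points
of the orbit is asymptotically Gaussian with variance `n ∫ f²`, as `|a| → ∞` and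
`n ≤ |a|^(1 - ε)`, `n → ∞`.  This holds for all parameters, on all horizontal lines, with a rate.
In particular the momentum diffuses with the quasilinear rate: its increment after `n` steps, divided
by `a √n`, converges in distribution to the normal law with variance `1/2`.
-/

open Real MeasureTheory Filter Topology ProbabilityTheory Function

namespace Pool.Agent.Results.MP_9ee088_an.MomentumDiffusion

/-- The lift `(x, y) ↦ (2 x - y + a sin 2 π x, x)` of `S_a` to the plane. -/
noncomputable def planeMap (a : ℝ) (p : ℝ × ℝ) : ℝ × ℝ :=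
  (2 * p.1 - p.2 + a * sin (2 * π * p.1), p.1)

/-- The momentum. -/
def momentum (p : ℝ × ℝ) : ℝ := p.1 - p.2

/-- The sum of `f` over the first coordinates of the first `n` points of the orbit of `(x, y)`. -/
noncomputable def orbitSum (f : ℝ → ℝ) (a : ℝ) (n : ℕ) (x y : ℝ) : ℝ :=
  ∑ k ∈ Finset.range n, f ((planeMap a)^[k] (x, y)).1

/-- The error `n^(-1/2) + (n/|a|)^(1/2) (1 + log |a|)`. -/
noncomputable def rate (a : ℝ) (n : ℕ) : ℝ := 1 / √n + √(n / |a|) * (1 + log |a|)

theorem orbitSum_eq (f : ℝ → ℝ) (a : ℝ) (n : ℕ) (x y : ℝ) :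
    orbitSum f a n x y = ∑ k ∈ Finset.range n, f (TH705.SM.X a y (k + 1) x) := by
  unfold orbitSum
  refine Finset.sum_congr rfl fun k _ => ?_
  have h := TH705.SM.iter_plane a y x k
  show f (((fun p : ℝ × ℝ => (2 * p.1 - p.2 + a * sin (2 * π * p.1), p.1))^[k] (x, y)).1) = _
  rw [h]

/-- the increment of the momentum is a sum of forces -/
theorem momentum_eq (a : ℝ) (n : ℕ) (x y : ℝ) :
    momentum ((planeMap a)^[n] (x, y)) - momentum (x, y) =
      a * orbitSum (fun t => sin (2 * π * t)) a n x y := by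
  unfold orbitSum
  induction n with
  | zero => simp
  | succ n ih =>
    rw [Function.iterate_succ_apply', Finset.sum_range_succ, mul_add, ← ih]
    unfold momentum planeMap
    ring

/-- **Gaussian fluctuations of all observables and quasilinear diffusion of the momentum of the
standard map, for every large parameter.** -/
theorem result :
    -- (1) the characteristic function, on every horizontal line, with a rate
    (∀ M : ℝ, 0 ≤ M → ∃ C : ℝ, 0 < C ∧ ∀ f : ℝ → ℝ, ContDiff ℝ 1 f → Periodic f 1 →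
      (∀ x, |f x| ≤ M) → (∀ x, |deriv f x| ≤ M) → ∫ x in (0:ℝ)..1, f x = 0 →
      ∀ a : ℝ, 1 ≤ |a| → ∀ n : ℕ, 1 ≤ n → ∀ y τ : ℝ,
      ‖(∫ x in (0:ℝ)..1, Complex.exp (((τ * (orbitSum f a n x y / √n) : ℝ) : ℂ) * Complex.I)) -
        ((exp (-(τ ^ 2 * (∫ x in (0:ℝ)..1, f x ^ 2) / 2)) : ℝ) : ℂ)‖
        ≤ C * (1 + |τ|) ^ 4 * rate a n) ∧
    -- (2) convergence in distribution to the normal law, on any horizontal lines
    (∀ f : ℝ → ℝ, ContDiff ℝ 1 f → Periodic f 1 → ∫ x in (0:ℝ)..1, f x = 0 →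
      (∃ x, f x ≠ 0) →
      ∀ (a : ℕ → ℝ) (n : ℕ → ℕ), (∀ j, 1 ≤ |a j|) → (∀ j, 1 ≤ n j) →
      Tendsto (fun j => rate (a j) (n j)) atTop (𝓝 0) → ∀ (y : ℕ → ℝ) (z : ℝ),
      Tendsto (fun j => volume {x : ℝ | x ∈ Set.Ioc (0:ℝ) 1 ∧
        orbitSum f (a j) (n j) x (y j) / √(n j) ≤ z}) atTop
        (𝓝 (gaussianReal 0 (∫ x in (0:ℝ)..1, f x ^ 2).toNNReal (Set.Iic z)))) ∧
    -- (3) quasilinear diffusion of the momentum
    (∀ (a : ℕ → ℝ) (n : ℕ → ℕ), (∀ j, 1 ≤ |a j|) → (∀ j, 1 ≤ n j) →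
      Tendsto (fun j => rate (a j) (n j)) atTop (𝓝 0) → ∀ (y : ℕ → ℝ) (z : ℝ),
      Tendsto (fun j => volume {x : ℝ | x ∈ Set.Ioc (0:ℝ) 1 ∧
        (momentum ((planeMap (a j))^[n j] (x, y j)) - momentum (x, y j)) / (a j * √(n j)) ≤ z})
        atTop (𝓝 (gaussianReal 0 (1 / 2) (Set.Iic z)))) := by
  have key2 : ∀ f : ℝ → ℝ, ContDiff ℝ 1 f → Periodic f 1 → ∫ x in (0:ℝ)..1, f x = 0 →
      ∀ v : ℝ, 0 < v → ∫ x in (0:ℝ)..1, f x ^ 2 = v →
      ∀ (a : ℕ → ℝ) (n : ℕ → ℕ), (∀ j, 1 ≤ |a j|) → (∀ j, 1 ≤ n j) →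
      Tendsto (fun j => rate (a j) (n j)) atTop (𝓝 0) → ∀ (y : ℕ → ℝ) (z : ℝ),
      Tendsto (fun j => volume {x : ℝ | x ∈ Set.Ioc (0:ℝ) 1 ∧
        orbitSum f (a j) (n j) x (y j) / √(n j) ≤ z}) atTop
        (𝓝 (gaussianReal 0 v.toNNReal (Set.Iic z))) := by
    intro f hf p f0 v hv f2 a n ha hn hr y z
    have hd : ∀ x, HasDerivAt f (deriv f x) x := fun x =>
      (hf.differentiable one_ne_zero x).hasDerivAt
    have := TH705.SM.clt_seq (rate := rate) (fun M hM => TH705.SM.clt2 hM) hd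
      hf.continuous_deriv_one p f0 hv f2 ha hn hr y z
    simp_rw [orbitSum_eq]
    exact this
  refine ⟨?_, ?_, ?_⟩
  · intro M hM
    obtain ⟨C, hC, H⟩ := TH705.SM.clt2 hM
    refine ⟨C, hC, ?_⟩
    intro f hf p h1 h2 f0 a ha n hn y τ
    have hd : ∀ x, HasDerivAt f (deriv f x) x := fun x =>
      (hf.differentiable one_ne_zero x).hasDerivAt
    have h := H f (deriv f) hd hf.continuous_deriv_one p h1 h2 f0 _ rfl a ha n hn y τ
    have e : ∀ x, Complex.exp (((τ * (orbitSum f a n x y / √n) : ℝ) : ℂ) * Complex.I) =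
        TH705.SM.E (τ / √n * ∑ k ∈ Finset.range n, f (TH705.SM.X a y (k + 1) x)) := by
      intro x
      unfold TH705.SM.E
      rw [orbitSum_eq]
      congr 3
      ring
    simp_rw [e]
    exact h
  · intro f hf p f0 hne a n ha hn hr y z
    refine key2 f hf p f0 _ ?_ rfl a n ha hn hr y z
    obtain ⟨x0, hx0⟩ := hne
    obtain ⟨x1, hx1, hx01⟩ := p.exists_mem_Ico₀ one_pos x0
    have hc : Continuous fun x => f x ^ 2 := hf.continuous.pow 2
    have h0 : 0 ≤ ∫ x in (0:ℝ)..1, f x ^ 2 :=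
      intervalIntegral.integral_nonneg zero_le_one fun x _ => sq_nonneg _
    refine intervalIntegral.integral_pos one_pos hc.continuousOn (fun x _ => sq_nonneg _)
      ⟨x1, ⟨hx1.1, hx1.2.le⟩, ?_⟩
    rw [← hx01]
    positivity
  · intro a n ha hn hr y z
    have hc : ContDiff ℝ 1 (fun t : ℝ => sin (2 * π * t)) := by fun_prop
    have hp : Periodic (fun t : ℝ => sin (2 * π * t)) 1 := by
      intro t
      show sin (2 * π * (t + 1)) = sin (2 * π * t)
      rw [mul_add, mul_one, Real.sin_add_two_pi]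
    have hpi := Real.pi_pos
    have h0 : ∫ x in (0:ℝ)..1, sin (2 * π * x) = 0 := by
      rw [intervalIntegral.integral_comp_mul_left (fun x => sin x) (by positivity)]
      simp
    have h2 : ∫ x in (0:ℝ)..1, (sin (2 * π * x)) ^ 2 = 1 / 2 := by
      rw [intervalIntegral.integral_comp_mul_left (fun x => sin x ^ 2) (by positivity)]
      rw [integral_sin_sq]
      simp
      field_simp
    have h := key2 _ hc hp h0 (1 / 2) (by norm_num) h2 a n ha hn hr y z
    have e : ∀ (j : ℕ) (x : ℝ),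
        (momentum ((planeMap (a j))^[n j] (x, y j)) - momentum (x, y j)) / (a j * √(n j)) =
        orbitSum (fun t => sin (2 * π * t)) (a j) (n j) x (y j) / √(n j) := by
      intro j x
      have ha0 : a j ≠ 0 := by
        intro h
        have := ha j
        rw [h, abs_zero] at this
        linarith
      rw [momentum_eq, mul_div_mul_left _ _ ha0]
    simp_rw [e]
    have hv : (1 / 2 : ℝ).toNNReal = (1 / 2 : NNReal) := by
      rw [Real.toNNReal_div zero_le_one, Real.toNNReal_one, Real.toNNReal_ofNat]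
    rwa [hv] at h

end Pool.Agent.Results.MP_9ee088_an.MomentumDiffusion
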