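import Pool.Agent.N15.SM.Swap2

set_option autoImplicit false

/-!
# The standard map is ergodic up to an error of the order `|a|^(-1/4)`, for every parameter

For EVERY real `a` with `|a| ≥ 1` the map `S_a(x, y) = (2x - y + a sin 2πx, x)` of the torus
satisfies, for all boxes `R` (products of a Borel set of the circle and an arc, in any order):

* the distance in `L²` of the frequency of visits to `R` during the times `0, …, N - 1` from the
  area of `R` is at most `C (1/N + |a|^(-1/2))^(1/2)`, for all `N ≥ 1`;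
* outside a set of points of measure at most `C / (ε² |a|^(1/2))` this frequency is within `ε` of
  the area of `R` at ALL times `N ≥ C |a|^(1/2) / ε`, and outside a set of measure at most
  `C / (ε⁶ |a|^(1/2))` this holds for all boxes with two sides which are arcs at once;
* every invariant Borel set `A` is spread out evenly: its part in `R` has the measure `m(A) m(R)` up
  to `C min(m(A), 1 - m(A))^(1/2) |a|^(-1/4)`, and its slices have nearly constant measure.

This rests on decay of correlations with the error `|a|^(-1/2) + k / |a|` at the time `k`.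
-/

open Real MeasureTheory Function

namespace Pool.Agent.Results.MP_9ee088_an.NearErgodicity

/-- The torus; `volume` is the normalised Lebesgue measure `m`, and `volume.real` is its value as a
real number. -/
abbrev Torus := UnitAddCircle × UnitAddCircle

/-- `S` is the standard map `S_a`. -/
def IsStandardMap (a : ℝ) (S : Torus → Torus) : Prop :=
  ∀ x y : ℝ, S ((x : UnitAddCircle), (y : UnitAddCircle)) =
    (((2 * x - y + a * sin (2 * π * x) : ℝ) : UnitAddCircle), (x : UnitAddCircle))

/-- An open arc: the image of an open interval `(α, β)`. -/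
def IsArc (J : Set UnitAddCircle) : Prop :=
  ∃ α β : ℝ, J = (fun t : ℝ => (t : UnitAddCircle)) '' Set.Ioo α β

/-- A box: a product of a Borel set and an arc, in one of the two orders. -/
def IsBox (R : Set Torus) : Prop :=
  ∃ E J : Set UnitAddCircle, MeasurableSet E ∧ IsArc J ∧ (R = E ×ˢ J ∨ R = J ×ˢ E)

open Classical in
/-- The frequency of the visits of the orbit of `p` to `R` during the times `0, …, N - 1`. -/
noncomputable def freq (S : Torus → Torus) (R : Set Torus) (N : ℕ) (p : Torus) : ℝ :=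
  (((Finset.range N).filter fun k => S^[k] p ∈ R).card : ℝ) / N

theorem arc_ball {J : Set UnitAddCircle} (hJ : IsArc J) :
    ∃ (x : UnitAddCircle) (w : ℝ), J = Metric.ball x w := by
  obtain ⟨α, β, rfl⟩ := hJ
  refine ⟨(((α + β) / 2 : ℝ) : UnitAddCircle), (β - α) / 2, ?_⟩
  rw [← N15.SM.arc_eq_ball]
  unfold V1152.SMI.arc
  rw [show (α + β) / 2 - (β - α) / 2 = α by ring, show (α + β) / 2 + (β - α) / 2 = β by ring]

theorem arc_prop {J : Set UnitAddCircle} (hJ : IsArc J) :
    MeasurableSet J ∧ V1152.SMI.Smoothable J 2 := by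
  obtain ⟨x, w, rfl⟩ := arc_ball hJ
  exact ⟨Metric.isOpen_ball.measurableSet, N15.SM.smoothable_ball x w⟩

theorem vol_box (E J : Set UnitAddCircle) :
    (volume : Measure Torus).real (E ×ˢ J) = volume.real E * volume.real J := by
  have : (volume : Measure Torus) (E ×ˢ J) = volume E * volume J := by
    rw [TH705.SM.vol_T2, Measure.prod_prod]
  rw [measureReal_def, this, ENNReal.toReal_mul]
  rfl

theorem freq_eq (S : Torus → Torus) (E J : Set UnitAddCircle) (N : ℕ) (p : Torus) :
    freq S (E ×ˢ J) N p = V11103.ergAv S (V1152.SMI.iB E J) N p := by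
  classical
  unfold freq V11103.ergAv
  have e : ∑ j ∈ Finset.range N, V1152.SMI.iB E J (S^[j] p) =
      (((Finset.range N).filter fun k => S^[k] p ∈ E ×ˢ J).card : ℝ) := by
    rw [Finset.card_filter, Nat.cast_sum]
    apply Finset.sum_congr rfl
    intro k _
    rw [V1152.SMI.iB_eq]
    by_cases h : S^[k] p ∈ E ×ˢ J
    · rw [Set.indicator_of_mem h, if_pos h]
      simp
    · rw [Set.indicator_of_notMem h, if_neg h]
      simp
  rw [e, one_div, div_eq_inv_mul]
  congr!

theorem freq_dev (a : ℝ) (E J : Set UnitAddCircle) {N : ℕ} (hN : 1 ≤ N) (p : Torus) :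
    freq (TH705.SM.S a) (E ×ˢ J) N p - (volume : Measure Torus).real (E ×ˢ J) =
      V11103.ergAv (TH705.SM.S a) (N15.SM.fB E J) N p := by
  rw [N15.SM.ergAv_fB a E J hN, freq_eq, vol_box]

theorem pos_of_le {N : ℕ} {x : ℝ} (hx : 0 < x) (h : x ≤ N) : 1 ≤ N := by
  have h1 : (0:ℝ) < N := hx.trans_le h
  exact_mod_cast h1

/-- **Near ergodicity of the standard map, for every parameter and at all times.** -/
theorem result : ∃ C : ℝ, 0 < C ∧ ∀ (a : ℝ) (S : Torus → Torus), 1 ≤ |a| → IsStandardMap a S →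
    -- (1) decay of correlations
    (∀ E J E' J' : Set UnitAddCircle, MeasurableSet E → IsArc J → MeasurableSet E' → IsArc J' →
      ∀ k : ℕ, 3 ≤ k →
      |volume.real (S^[k] ⁻¹' (E ×ˢ J) ∩ (E' ×ˢ J')) -
        volume.real (E ×ˢ J) * volume.real (E' ×ˢ J')| ≤ C * (1 / √|a| + k / |a|)) ∧
    -- (2) the frequencies of visits, in `L²`, at all times
    (∀ R : Set Torus, IsBox R → ∀ N : ℕ, 1 ≤ N →
      ∫ p, (freq S R N p - volume.real R) ^ 2 ≤ C * (1 / N + 1 / √|a|)) ∧
    -- (3) the frequencies of visits of most orbits, at all large times at once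
    (∀ R : Set Torus, IsBox R → ∀ ε : ℝ, 0 < ε →
      volume.real {p | ∃ N : ℕ, C * √|a| / ε ≤ N ∧ ε < |freq S R N p - volume.real R|} ≤
        C / (ε ^ 2 * √|a|)) ∧
    -- (4) the same, for all boxes of two arcs at once
    (∀ ε : ℝ, 0 < ε → ε ≤ 1 →
      volume.real {p | ∃ N : ℕ, C * √|a| / ε ≤ N ∧ ∃ I J : Set UnitAddCircle, IsArc I ∧ IsArc J ∧
        ε < |freq S (I ×ˢ J) N p - (volume : Measure Torus).real (I ×ˢ J)|} ≤
        C / (ε ^ 6 * √|a|)) ∧
    -- (5) the invariant sets
    (∀ A : Set Torus, MeasurableSet A → S ⁻¹' A = A →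
      (∀ R : Set Torus, IsBox R → |volume.real (A ∩ R) - volume.real A * volume.real R| ≤
        C * √(min (volume.real A) (1 - volume.real A)) * |a| ^ (-(1 / 4) : ℝ)) ∧
      ∫ x : UnitAddCircle, |volume.real {y : UnitAddCircle | (x, y) ∈ A} - volume.real A| ≤
        C * √(min (volume.real A) (1 - volume.real A)) * |a| ^ (-(1 / 4) : ℝ) ∧
      ∫ y : UnitAddCircle, |volume.real {x : UnitAddCircle | (x, y) ∈ A} - volume.real A| ≤
        C * √(min (volume.real A) (1 - volume.real A)) * |a| ^ (-(1 / 4) : ℝ)) := by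
  have hCD := N15.SM.CD_pos
  have hCE := N15.SM.CE_pos (Dv := 2) (by norm_num)
  have hCE0 := N15.SM.CE_pos (Dv := 0) (by norm_num)
  set C : ℝ := 32 + 3 * N15.SM.CD + 3699200 * N15.SM.CE 2 + √(2 * N15.SM.CE 2) +
    2 * √(2 * N15.SM.CE 0) with hC
  have hs2 : 0 ≤ √(2 * N15.SM.CE 2) := Real.sqrt_nonneg _
  have hs0 : 0 ≤ √(2 * N15.SM.CE 0) := Real.sqrt_nonneg _
  have hC0 : 0 < C := by positivity
  refine ⟨C, hC0, ?_⟩
  intro a S ha hS
  have ha0 : 0 < |a| := by linarith
  have hsa : 0 < √|a| := Real.sqrt_pos.2 ha0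
  obtain rfl : S = TH705.SM.S a := TH705.SM.eq_S a S hS
  refine ⟨?_, ?_, ?_, ?_, ?_⟩
  · intro E J E' J' hE hJ hE' hJ' k hk
    obtain ⟨mJ, sJ⟩ := arc_prop hJ
    obtain ⟨mJ', sJ'⟩ := arc_prop hJ'
    have h := N15.SM.mix_box2 ha hk hE mJ hE' mJ' sJ sJ'
    rw [vol_box, vol_box]
    refine h.trans ?_
    apply mul_le_mul_of_nonneg_right _ (by positivity)
    rw [hC]
    linarith
  · rintro R ⟨E, J, hE, hJ, hR⟩ N hN
    obtain ⟨mJ, sJ⟩ := arc_prop hJ
    have hN0 : (0:ℝ) < N := by exact_mod_cast hN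
    have hle : N15.SM.CE 2 * (1 / N + 1 / √|a|) ≤ C * (1 / N + 1 / √|a|) := by
      apply mul_le_mul_of_nonneg_right _ (by positivity)
      rw [hC]
      linarith
    rcases hR with rfl | rfl
    · simp_rw [freq_dev a E J hN]
      exact (N15.SM.box_L2 ha hE mJ (by norm_num) sJ hN).trans hle
    · simp_rw [freq_dev a J E hN]
      exact (N15.SM.box_L2' ha hE mJ (by norm_num) sJ hN).trans hle
  · rintro R ⟨E, J, hE, hJ, hR⟩ ε hε
    obtain ⟨mJ, sJ⟩ := arc_prop hJ
    have hle : 8 * N15.SM.CE 2 / (ε ^ 2 * √|a|) ≤ C / (ε ^ 2 * √|a|) := by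
      apply div_le_div_of_nonneg_right _ (by positivity)
      rw [hC]
      linarith
    have hsub : ∀ F G : Set UnitAddCircle,
        {p | ∃ N : ℕ, C * √|a| / ε ≤ N ∧
          ε < |freq (TH705.SM.S a) (F ×ˢ G) N p - (volume : Measure Torus).real (F ×ˢ G)|} ⊆
        {p | ∃ N : ℕ, 16 * √|a| / ε ≤ N ∧
          ε < |V11103.ergAv (TH705.SM.S a) (N15.SM.fB F G) N p|} := by
      rintro F G p ⟨N, hN, hp⟩
      have h16 : 16 * √|a| / ε ≤ N := by
        refine le_trans ?_ hN
        apply div_le_div_of_nonneg_right _ hε.le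
        apply mul_le_mul_of_nonneg_right _ hsa.le
        rw [hC]
        linarith
      refine ⟨N, h16, ?_⟩
      rwa [freq_dev a F G (pos_of_le (by positivity) h16)] at hp
    rcases hR with rfl | rfl
    · exact (measureReal_mono (hsub E J) (measure_ne_top _ _)).trans
        ((N15.SM.box_all ha hE mJ (by norm_num) sJ hε).trans hle)
    · exact (measureReal_mono (hsub J E) (measure_ne_top _ _)).trans
        ((N15.SM.box_all' ha hE mJ (by norm_num) sJ hε).trans hle)
  · intro ε hε hε1
    have hle : 3699200 * N15.SM.CE 2 / (ε ^ 6 * √|a|) ≤ C / (ε ^ 6 * √|a|) := by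
      apply div_le_div_of_nonneg_right _ (by positivity)
      rw [hC]
      linarith
    refine le_trans (measureReal_mono ?_ (measure_ne_top _ _))
      ((N15.SM.arcs_all ha hε hε1).trans hle)
    rintro p ⟨N, hN, I, J, hI, hJ, hp⟩
    obtain ⟨x, w, rfl⟩ := arc_ball hI
    obtain ⟨x', w', rfl⟩ := arc_ball hJ
    have h32 : 32 * √|a| / ε ≤ N := by
      refine le_trans ?_ hN
      apply div_le_div_of_nonneg_right _ hε.le
      apply mul_le_mul_of_nonneg_right _ hsa.le
      rw [hC]
      linarith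
    refine ⟨N, h32, x, x', w, w', ?_⟩
    rwa [freq_dev a _ _ (pos_of_le (by positivity) h32)] at hp
  · intro A hA hinv
    have hmm : 0 ≤ √(min (volume.real A) (1 - volume.real A)) := Real.sqrt_nonneg _
    have har : 0 ≤ |a| ^ (-(1 / 4) : ℝ) := by positivity
    have hle : √(2 * N15.SM.CE 2) * √(min (volume.real A) (1 - volume.real A)) *
        |a| ^ (-(1 / 4) : ℝ) ≤ C * √(min (volume.real A) (1 - volume.real A)) *
        |a| ^ (-(1 / 4) : ℝ) := by
      apply mul_le_mul_of_nonneg_right _ har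
      apply mul_le_mul_of_nonneg_right _ hmm
      rw [hC]
      linarith
    have hle2 : 2 * (√(2 * N15.SM.CE 0) * √(min (volume.real A) (1 - volume.real A)) *
        |a| ^ (-(1 / 4) : ℝ)) ≤ C * √(min (volume.real A) (1 - volume.real A)) *
        |a| ^ (-(1 / 4) : ℝ) := by
      rw [← mul_assoc, ← mul_assoc]
      apply mul_le_mul_of_nonneg_right _ har
      apply mul_le_mul_of_nonneg_right _ hmm
      rw [hC]
      linarith
    refine ⟨?_, (N15.SM.slices2 ha hA hinv).trans hle2,
      (N15.SM.slices_swap2 ha hA hinv).trans hle2⟩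
    rintro R ⟨E, J, hE, hJ, hR⟩
    obtain ⟨mJ, sJ⟩ := arc_prop hJ
    rcases hR with rfl | rfl
    · rw [vol_box]
      exact (N15.SM.box_min2 ha hA hinv hE mJ (by norm_num) sJ).trans hle
    · rw [vol_box]
      exact (N15.SM.box_swap2 ha hA hinv hE mJ (by norm_num) sJ).trans hle

end Pool.Agent.Results.MP_9ee088_an.NearErgodicity
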