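import Pool.Agent.N317.SM.Struct

set_option autoImplicit false

/-!
# All islands of the standard map are thin, outside one component; every parameter `|a| ≥ 256`

Let `S_a (x, y) = (2x - y + a sin 2πx, x)` on the torus, with `|a| ≥ 256` (NO parameter is excluded).
If `S_a` is ergodic and hyperbolic (the conjecture of Sinai), it has no periodic islands at all. Here:
for every `|a| ≥ 256`, all the periodic islands (periodic discs, periodic annuli, …) of all periods
together, after removing from each island the points within distance `|a| ^ (-n / 4)` of its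
complement, have area at most `6 n / |a| + 8 / √|a|`, for every `n ≥ 1`. For instance (`n ≈ √|a|`)
the islands eroded by the distance `|a| ^ (-√|a| / 4)` have total area `O(1 / √|a|)`.

More generally an invariant open set `W` has one distinguished connected component `W₀` (or none),
which is invariant, whose lift to the plane is connected (so it goes around the torus in all
directions) and which comes `|a| ^ (-m / 4)`-close to all points outside a set of area
`6 m / |a| + 8 / √|a|`; all the other components of `W` together are thin, in the same sense; and if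
they have area `η` then the boundary of `W` has length at least about `|a| ^ (η |a| / 12)`.
-/

open Real MeasureTheory
open scoped ENNReal

namespace Pool.Agent.Results.MP_9ee088_an.ThinIslands

/-- The torus `ℝ² / ℤ²`, with its Lebesgue measure `volume` and the sup distance. -/
abbrev Torus := UnitAddCircle × UnitAddCircle

/-- `T` is the standard map `S_a` of the torus. -/
def IsStandardMap (a : ℝ) (T : Torus → Torus) : Prop :=
  ∀ x y : ℝ, T ((x : UnitAddCircle), (y : UnitAddCircle)) =
    (((2 * x - y + a * sin (2 * π * x) : ℝ) : UnitAddCircle), (x : UnitAddCircle))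

/-- The covering map from the plane to the torus. -/
noncomputable def proj (p : ℝ × ℝ) : Torus := ((p.1 : UnitAddCircle), (p.2 : UnitAddCircle))

/-- `D` is a returning domain: an open connected (possibly empty) set such that every `T^k(D)` is
equal to `D` or disjoint from `D`. For instance a connected component of an invariant open set, or a
periodic domain disjoint from its other images. -/
structure Returning (T : Torus → Torus) (D : Set Torus) : Prop where
  isOpen : IsOpen D
  isPreconnected : IsPreconnected D
  returns : ∀ k : ℕ, T^[k] '' D = D ∨ Disjoint (T^[k] '' D) D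

/-- `D` is an island: a returning domain whose full preimage in the plane is not connected. For
instance a periodic disc, or a periodic essential annulus. -/
structure Island (T : Torus → Torus) (D : Set Torus) : Prop where
  returning : Returning T D
  lift : ¬ IsConnected (proj ⁻¹' D)

/-- The error `3 n / |a| + 4 / √|a|`. -/
noncomputable def err (a : ℝ) (n : ℕ) : ℝ := 3 * n / |a| + 4 / √|a|

/-- The scale `|a| ^ (-n / 4)`. -/
noncomputable def scale (a : ℝ) (n : ℕ) : ℝ := |a| ^ (-(n : ℝ) / 4)

/-- `D` is large, with respect to the exceptional sets `B m`: it is invariant, its full preimage in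
the plane is connected, and it comes `scale a m`-close to all points outside `B m`. -/
structure Large (a : ℝ) (T : Torus → Torus) (B : ℕ → Set Torus) (D : Set Torus) : Prop where
  invariant : T ⁻¹' D = D
  lift : IsConnected (proj ⁻¹' D)
  near : ∀ m, 1 ≤ m → ∀ q, q ∉ B m → (Metric.closedBall q (scale a m) ∩ D).Nonempty

theorem sqrt_ge {a : ℝ} (ha : 256 ≤ |a|) : 16 ≤ √|a| := by
  apply Real.le_sqrt_of_sq_le
  norm_num
  exact ha

theorem scale_ge {a : ℝ} (ha : 256 ≤ |a|) (n : ℕ) :
    N317.SM.rad (√|a|) n ≤ scale a n := by
  have ha0 : 0 < |a| := by linarith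
  have h1 : 1 / √√|a| = |a| ^ (-(1:ℝ) / 4) := by
    rw [Real.sqrt_eq_rpow, Real.sqrt_eq_rpow, ← Real.rpow_mul ha0.le, one_div, ← Real.rpow_neg ha0.le]
    norm_num
  have h2 : (1 / √√|a|) ^ n = scale a n := by
    unfold scale
    rw [h1, ← Real.rpow_natCast, ← Real.rpow_mul ha0.le]
    congr 1
    ring
  have h3 : 0 < √√|a| := Real.sqrt_pos.2 (Real.sqrt_pos.2 ha0)
  have h4 : 1 / √√|a| ≤ 1 := by
    rw [div_le_one h3]
    apply Real.le_sqrt_of_sq_le
    have := sqrt_ge ha
    linarith
  unfold N317.SM.rad
  rw [pow_succ, h2]
  have h5 : 0 ≤ scale a n := by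
    unfold scale
    positivity
  have h6 : 0 < 1 / √√|a| := by positivity
  nlinarith

theorem err_ge {a : ℝ} (ha : 256 ≤ |a|) (n : ℕ) :
    3 * n / |a| + 3.71 / √|a| ≤ err a n := by
  unfold err
  have h := sqrt_ge ha
  have h2 : (3.71:ℝ) / √|a| ≤ 4 / √|a| := div_le_div_of_nonneg_right (by norm_num) (by linarith)
  linarith

/-- **All islands of the standard map are thin, for every parameter `|a| ≥ 256`.** -/
theorem result (a : ℝ) (ha : 256 ≤ |a|) (T : Torus → Torus) (hT : IsStandardMap a T) :
    -- (1) the total area of the eroded islands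
    (∀ n : ℕ, 1 ≤ n →
      volume {p | ∃ D, Island T D ∧ Metric.closedBall p (scale a n) ⊆ D} ≤
        ENNReal.ofReal (2 * err a n)) ∧
    -- (2) discs (injective images of plane domains) have a disconnected preimage
    (∀ U : Set (ℝ × ℝ), IsOpen U → IsConnected U → Set.InjOn proj U →
      ¬ IsConnected (proj ⁻¹' (proj '' U))) ∧
    ∃ B : ℕ → Set Torus,
      (∀ n, 1 ≤ n → MeasurableSet (B n) ∧ volume (B n) ≤ ENNReal.ofReal (2 * err a n)) ∧
      -- (3) a returning domain with an inner point outside `B n` is large
      (∀ D, Returning T D → ∀ n, 1 ≤ n → ∀ p, p ∉ B n → Metric.closedBall p (scale a n) ⊆ D →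
        Large a T B D) ∧
      -- (4) the components of an invariant open set
      (∀ W : Set Torus, IsOpen W → T ⁻¹' W = W → ∃ W₀ ⊆ W,
        (W₀ = ∅ ∨ (∃ p ∈ W, W₀ = connectedComponentIn W p) ∧ Large a T B W₀) ∧
        (∀ n, 1 ≤ n → ∀ p ∈ W \ W₀, Metric.closedBall p (scale a n) ⊆ W → p ∈ B n) ∧
        (∀ n, 1 ≤ n → volume (W \ W₀) ≤ ENNReal.ofReal (err a n) +
          volume (Metric.cthickening (scale a n) (frontier W))) ∧
        (∀ η : ℝ, ENNReal.ofReal η ≤ volume (W \ W₀) →
          ENNReal.ofReal (|a| ^ ((η * |a| - 5 * √|a|) / 12)) ≤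
            1 + 2 * Measure.hausdorffMeasure 1 (frontier W))) := by
  have hTS : T = TH705.SM.S a := TH705.SM.eq_S a T hT
  have hM := sqrt_ge ha
  have haM : |a| = √|a| ^ 2 := (Real.sq_sqrt (abs_nonneg a)).symm
  have hproj : proj = N317.SM.pr := rfl
  rw [hTS]
  -- the exceptional sets
  set bd : ℕ → Set Torus := fun n => toMeasurable volume (Y332.SM.bad a (√|a|) n) with hbd
  set B : ℕ → Set Torus := fun n => bd n ∪ Prod.swap ⁻¹' bd n with hB
  have hbdv : ∀ n, 1 ≤ n → volume (bd n) ≤ ENNReal.ofReal (err a n) := by
    intro n hn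
    have h1 : volume (bd n) = volume (Y332.SM.bad a (√|a|) n) := measure_toMeasurable _
    rw [h1]
    exact (Y332.SM.vol_bad hM haM hn).trans (ENNReal.ofReal_le_ofReal (err_ge ha n))
  have hBm : ∀ n, 1 ≤ n → MeasurableSet (B n) ∧ volume (B n) ≤ ENNReal.ofReal (2 * err a n) := by
    intro n hn
    have hm : MeasurableSet (bd n) := measurableSet_toMeasurable _ _
    refine ⟨hm.union (hm.preimage measurable_swap), ?_⟩
    refine (measure_union_le _ _).trans ?_
    rw [Y332.SM.vol_swap]
    have h0 : 0 ≤ err a n := by unfold err; positivity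
    rw [two_mul, ENNReal.ofReal_add h0 h0]
    exact add_le_add (hbdv n hn) (hbdv n hn)
  have hBn : ∀ n p, p ∉ B n → p ∉ Y332.SM.bad a (√|a|) n ∧
      Prod.swap p ∉ Y332.SM.bad a (√|a|) n := by
    intro n p hp
    constructor
    · exact fun h => hp (Or.inl (subset_toMeasurable _ _ h))
    · exact fun h => hp (Or.inr (subset_toMeasurable volume _ h))
  have hnear : ∀ D : Set Torus, TH705.SM.S a ⁻¹' D = D →
      Y332.SM.HasCurve (Prod.swap ⁻¹' D) → ∀ m, 1 ≤ m → ∀ q, q ∉ B m →
      (Metric.closedBall q (scale a m) ∩ D).Nonempty := by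
    intro D hD hDv m hm q hq
    obtain ⟨x, hx, hxq⟩ := N317.SM.near hM haM hm hD hDv (hBn m q hq).1
    exact ⟨x, hxq.trans (scale_ge ha m), hx⟩
  -- returning domains
  have hret : ∀ D, Returning (TH705.SM.S a) D → ∀ n, 1 ≤ n → ∀ p, p ∉ B n →
      Metric.closedBall p (scale a n) ⊆ D → Large a (TH705.SM.S a) B D := by
    intro D hD n hn p hp hpD
    obtain ⟨h1, h2, h3, h4⟩ := N317.SM.returning hM haM hD.isOpen hD.isPreconnected hD.returns hn
      ((Metric.closedBall_subset_closedBall (scale_ge ha n)).trans hpD) (hBn n p hp).1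
      (hBn n p hp).2
    exact ⟨h1, h4, hnear D h1 h3⟩
  refine ⟨?_, ?_, B, hBm, hret, ?_⟩
  · intro n hn
    refine (measure_mono ?_).trans (hBm n hn).2
    rintro p ⟨D, hD, hpD⟩
    by_contra hp
    exact hD.lift (hret D hD.returning n hn p hp hpD).lift
  · intro U hU hUc hUi hcon
    exact N317.SM.disc_of_inj hU hUc.nonempty hUi hcon.isPreconnected
  · intro W hWo hW
    obtain ⟨W₀, hW₀, hor, hsmall⟩ := N317.SM.structure_open hM haM hWo hW
    refine ⟨W₀, hW₀, ?_, ?_, ?_, ?_⟩
    · rcases hor with h | ⟨h1, h2, _, h4, h5⟩
      · exact Or.inl h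
      · exact Or.inr ⟨h2, h1, h5, hnear W₀ h1 h4⟩
    · intro n hn p hp hpW
      by_contra hpB
      obtain ⟨hf, hf'⟩ := N317.SM.deep hWo
        ((Metric.closedBall_subset_closedBall (scale_ge ha n)).trans hpW)
      rcases hsmall with h | h
      · rcases h n hn hp with h1 | h1
        · exact (hBn n p hpB).1 h1
        · exact hf h1
      · rcases h n hn hp with h1 | h1
        · exact (hBn n p hpB).2 h1
        · exact hf' h1
    · intro n hn
      have key : volume (W \ W₀) ≤ ENNReal.ofReal (3 * n / |a| + 3.71 / √|a|) +
          volume (Metric.cthickening (N317.SM.rad (√|a|) n) (frontier W)) := by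
        rcases hsmall with h | h
        · refine (measure_mono (h n hn)).trans ((measure_union_le _ _).trans (add_le_add
            (Y332.SM.vol_bad hM haM hn) (Y332.SM.vol_hnbd_thick _ _).1))
        · refine (measure_mono (h n hn)).trans ?_
          rw [Y332.SM.vol_swap]
          exact (measure_union_le _ _).trans (add_le_add (Y332.SM.vol_bad hM haM hn)
            (Y332.SM.vol_hnbd_thick _ _).2)
      refine key.trans (add_le_add (ENNReal.ofReal_le_ofReal (err_ge ha n)) ?_)
      exact measure_mono (Metric.cthickening_mono (scale_ge ha n) _)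
    · intro η hη
      refine N317.SM.length_of hM haM fun n hn => hη.trans ?_
      refine N317.SM.vol_small_part hM haM hn ?_
      rcases hsmall with h | h
      · exact Or.inl (h n hn)
      · exact Or.inr (h n hn)

end Pool.Agent.Results.MP_9ee088_an.ThinIslands
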